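import Pool.Agent.Helper13_FK.Stmts

/-! FK, module LD: the part of the values composed of small primes dividing the value twice. -/

set_option autoImplicit false

namespace Pool.Agent.FK.H91

open Finset Polynomial

theorem omega_nat (d : ℕ) (hd : 1 ≤ d) (s : ℕ) (hs : s ≠ 0) :
    (d ^ 2) ^ s.primeFactors.card ≤ (d ^ 2) ^ (d ^ 2) * s := by
  classical
  have h1 : (d ^ 2) ^ s.primeFactors.card =
      (∏ _p ∈ s.primeFactors.filter (fun p => p < d ^ 2), d ^ 2) *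
        ∏ _p ∈ s.primeFactors.filter (fun p => ¬ p < d ^ 2), d ^ 2 := by
    rw [Finset.prod_filter_mul_prod_filter_not, Finset.prod_const]
  rw [h1]
  have hd2 : 1 ≤ d ^ 2 := Nat.one_le_pow _ _ hd
  refine Nat.mul_le_mul ?_ ?_
  · rw [Finset.prod_const]
    refine Nat.pow_le_pow_right hd2 ?_
    have h2 : s.primeFactors.filter (fun p => p < d ^ 2) ⊆ Finset.range (d ^ 2) := by
      intro p hp
      exact Finset.mem_range.2 (Finset.mem_filter.1 hp).2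
    exact (Finset.card_le_card h2).trans_eq (Finset.card_range _)
  · calc ∏ _p ∈ s.primeFactors.filter (fun p => ¬ p < d ^ 2), d ^ 2
        ≤ ∏ p ∈ s.primeFactors.filter (fun p => ¬ p < d ^ 2), p := by
          refine Finset.prod_le_prod' fun p hp => ?_
          exact not_lt.1 (Finset.mem_filter.1 hp).2
      _ ≤ ∏ p ∈ s.primeFactors, p := by
          refine Finset.prod_le_prod_of_subset_of_one_le' (Finset.filter_subset _ _) ?_
          intro p hp _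
          exact (Nat.prime_of_mem_primeFactors hp).one_lt.le
      _ ≤ s := Nat.le_of_dvd (Nat.pos_of_ne_zero hs) (Nat.prod_primeFactors_dvd s)

theorem omega_real (d : ℕ) (hd : 1 ≤ d) (s : ℕ) (hs : s ≠ 0) :
    (d : ℝ) ^ s.primeFactors.card ≤ (d : ℝ) ^ (d ^ 2) * (s : ℝ) ^ (1 / 2 : ℝ) := by
  have h := omega_nat d hd s hs
  have h' : ((d : ℝ) ^ s.primeFactors.card) ^ 2 ≤ ((d : ℝ) ^ (d ^ 2) * (s : ℝ) ^ (1 / 2 : ℝ)) ^ 2 := by
    rw [mul_pow, ← Real.rpow_natCast ((s : ℝ) ^ (1 / 2 : ℝ)) 2, ← Real.rpow_mul (Nat.cast_nonneg s)]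
    norm_num
    rw [← pow_mul, ← pow_mul, mul_comm s.primeFactors.card 2, mul_comm (d ^ 2) 2, pow_mul, pow_mul]
    exact_mod_cast h
  exact le_of_sq_le_sq h' (by positivity)

theorem exists_divisor (Y b : ℝ) (hY : 1 ≤ Y) (n : ℕ) (hb : ∀ p : ℕ, p.Prime → p ∣ n → (p : ℝ) ≤ b)
    (hn : Y < n) : ∃ s : ℕ, s ∣ n ∧ Y < s ∧ (s : ℝ) ≤ Y * b := by
  induction n using Nat.strong_induction_on with
  | _ n ih =>
    by_cases hle : (n : ℝ) ≤ Y * b
    · exact ⟨n, dvd_rfl, hn, hle⟩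
    · have h1 : (1 : ℝ) < n := lt_of_le_of_lt hY hn
      have h1' : 1 < n := by exact_mod_cast h1
      obtain ⟨p, hp, hpn⟩ := Nat.exists_prime_and_dvd h1'.ne'
      obtain ⟨k, rfl⟩ := hpn
      have hk0 : 0 < k := Nat.pos_of_ne_zero fun h => by simp [h] at h1'
      have hpb : (p : ℝ) ≤ b := hb p hp (dvd_mul_right p k)
      have hp0 : (0 : ℝ) < p := by exact_mod_cast hp.pos
      have hYk : Y < k := by
        push Not at hle
        push_cast at hle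
        by_contra hc
        push Not at hc
        have : (p : ℝ) * k ≤ Y * b := by
          calc (p : ℝ) * k ≤ b * Y := mul_le_mul hpb hc (Nat.cast_nonneg _) (hp0.le.trans hpb)
            _ = Y * b := mul_comm _ _
        linarith
      obtain ⟨s, hs1, hs2, hs3⟩ := ih k (by nlinarith [hp.two_le])
        (fun r hr hrk => hb r hr (hrk.trans (dvd_mul_left k p))) hYk
      exact ⟨s, hs1.trans (dvd_mul_left k p), hs2, hs3⟩

theorem ld (h2 : L2Stmt) : LdStmt := by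
  classical
  intro d a C₁ c δ δ' hd ha hδ h8 hδ1
  have hδ'0 : 0 < δ' := by linarith
  refine ⟨δ' / 16, by positivity,
    2 * (d : ℝ) ^ (d ^ 2) * ∑' n : ℕ, 1 / (n : ℝ) ^ (5 / 4 : ℝ), ?_⟩
  intro H Φ Δ hH hLP
  have hHR : (1 : ℝ) ≤ H := by exact_mod_cast hH
  have hH0 : (0 : ℝ) < H := by linarith
  set Y : ℝ := (H : ℝ) ^ (δ' / 4) with hYdef
  have hY1 : 1 ≤ Y := Real.one_le_rpow hHR (by positivity)
  have hY0 : 0 < Y := by linarith
  -- the set of moduli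
  let S : Finset ℕ := (Finset.range (H + 1)).filter
    (fun s => Y < s ∧ s ^ 2 ≤ H ∧ s.Coprime (a * Δ).natAbs)
  let F : ℕ → Finset ℕ := fun s =>
    (Finset.range H).filter (fun t => (((s ^ 2 : ℕ) : ℤ)) ∣ Φ.eval (t : ℤ))
  -- inclusion
  have hsub : {t : ℕ | t < H ∧ Φ.eval (t : ℤ) ≠ 0 ∧ (H : ℝ) ^ δ' <
      ((∏ p ∈ (Φ.eval (t : ℤ)).natAbs.primeFactors.filter (fun p => ¬ p ∣ (2 * a * Δ).natAbs ∧
          (p : ℝ) ≤ (H : ℝ) ^ δ ∧ p ^ 2 ∣ (Φ.eval (t : ℤ)).natAbs),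
        p ^ (Φ.eval (t : ℤ)).natAbs.factorization p : ℕ) : ℝ)} ⊆ ↑(S.biUnion F) := by
    rintro t ⟨htH, hne, hbig⟩
    set V : ℕ := (Φ.eval (t : ℤ)).natAbs with hV
    have hV0 : V ≠ 0 := Int.natAbs_ne_zero.2 hne
    set T : Finset ℕ := V.primeFactors.filter (fun p => ¬ p ∣ (2 * a * Δ).natAbs ∧
          (p : ℝ) ≤ (H : ℝ) ^ δ ∧ p ^ 2 ∣ V) with hT
    have hTp : ∀ p ∈ T, p.Prime ∧ ¬ p ∣ (2 * a * Δ).natAbs ∧ (p : ℝ) ≤ (H : ℝ) ^ δ ∧ p ^ 2 ∣ V := by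
      intro p hp
      rw [hT, Finset.mem_filter] at hp
      exact ⟨Nat.prime_of_mem_primeFactors hp.1, hp.2⟩
    let sf : ℕ := ∏ p ∈ T, p ^ (V.factorization p / 2)
    -- `D ≤ sf ^ 3`
    have hD : ∏ p ∈ T, p ^ V.factorization p ≤ sf ^ 3 := by
      rw [← Finset.prod_pow]
      refine Finset.prod_le_prod' fun p hp => ?_
      rw [← pow_mul]
      refine Nat.pow_le_pow_right (hTp p hp).1.pos ?_
      have h3 : 2 ≤ V.factorization p :=
        ((hTp p hp).1.pow_dvd_iff_le_factorization hV0).1 (hTp p hp).2.2.2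
      omega
    have hsfY : Y < sf := by
      by_contra hc
      push Not at hc
      have h4 : (H : ℝ) ^ δ' < (sf : ℝ) ^ 3 := by
        refine lt_of_lt_of_le hbig ?_
        exact_mod_cast hD
      have h5 : (sf : ℝ) ^ 3 ≤ Y ^ 3 := pow_le_pow_left₀ (Nat.cast_nonneg _) hc 3
      have h6 : Y ^ 3 ≤ (H : ℝ) ^ δ' := by
        rw [hYdef, ← Real.rpow_natCast, ← Real.rpow_mul hH0.le]
        exact Real.rpow_le_rpow_of_exponent_le hHR (by push_cast; linarith)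
      linarith
    have hsfp : ∀ p : ℕ, p.Prime → p ∣ sf → p ∈ T := by
      intro p hp hps
      obtain ⟨r, hr, hpr⟩ := (Prime.dvd_finsetProd_iff hp.prime _).1 hps
      have h7 : p ∣ r := hp.dvd_of_dvd_pow hpr
      rwa [(Nat.prime_dvd_prime_iff_eq hp (hTp r hr).1).1 h7]
    have hsfV : sf ^ 2 ∣ V := by
      have h8 : sf ^ 2 ∣ ∏ p ∈ T, p ^ V.factorization p := by
        rw [← Finset.prod_pow]
        refine Finset.prod_dvd_prod_of_dvd _ _ fun p _ => ?_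
        rw [← pow_mul]
        exact pow_dvd_pow p (by omega)
      refine h8.trans ?_
      have h9 : ∏ p ∈ T, p ^ V.factorization p ∣ ∏ p ∈ V.primeFactors, p ^ V.factorization p :=
        Finset.prod_dvd_prod_of_subset _ _ _ (Finset.filter_subset _ _)
      have h10 : ∏ p ∈ V.primeFactors, p ^ V.factorization p = V :=
        Nat.prod_factorization_pow_eq_self hV0
      rwa [h10] at h9
    obtain ⟨s, hs1, hs2, hs3⟩ := exists_divisor Y ((H : ℝ) ^ δ) hY1 sf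
      (fun p hp hps => (hTp p (hsfp p hp hps)).2.2.1) hsfY
    have hs2H : (s : ℝ) ^ 2 ≤ H := by
      have h11 : (s : ℝ) ≤ (H : ℝ) ^ (1 / 2 : ℝ) := by
        refine hs3.trans ?_
        rw [hYdef, ← Real.rpow_add hH0]
        exact Real.rpow_le_rpow_of_exponent_le hHR (by linarith)
      calc (s : ℝ) ^ 2 ≤ ((H : ℝ) ^ (1 / 2 : ℝ)) ^ 2 := pow_le_pow_left₀ (Nat.cast_nonneg _) h11 2
        _ = H := by
            rw [← Real.rpow_natCast, ← Real.rpow_mul hH0.le]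
            norm_num
    have hs2H' : s ^ 2 ≤ H := by exact_mod_cast hs2H
    have hs0 : 0 < s := by
      have : (0 : ℝ) < s := by linarith
      exact_mod_cast this
    rw [Finset.mem_coe, Finset.mem_biUnion]
    refine ⟨s, ?_, ?_⟩
    · simp only [S, Finset.mem_filter, Finset.mem_range]
      refine ⟨by nlinarith, hs2, hs2H', ?_⟩
      refine Nat.Coprime.symm (Nat.coprime_of_dvd fun p hp hpa hps => ?_)
      have h12 := (hTp p (hsfp p hp (hps.trans hs1))).2.1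
      apply h12
      rw [mul_assoc, Int.natAbs_mul]
      exact hpa.mul_left _
    · simp only [F, Finset.mem_filter, Finset.mem_range]
      refine ⟨htH, ?_⟩
      have h13 : s ^ 2 ∣ V := (pow_dvd_pow_of_dvd hs1 2).trans hsfV
      exact Int.natCast_dvd.2 h13
  -- counting
  have hcard : ({t : ℕ | t < H ∧ Φ.eval (t : ℤ) ≠ 0 ∧ (H : ℝ) ^ δ' <
      ((∏ p ∈ (Φ.eval (t : ℤ)).natAbs.primeFactors.filter (fun p => ¬ p ∣ (2 * a * Δ).natAbs ∧
          (p : ℝ) ≤ (H : ℝ) ^ δ ∧ p ^ 2 ∣ (Φ.eval (t : ℤ)).natAbs),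
        p ^ (Φ.eval (t : ℤ)).natAbs.factorization p : ℕ) : ℝ)}.ncard : ℝ) ≤
      ∑ s ∈ S, ((F s).card : ℝ) := by
    have h1 := Set.ncard_le_ncard hsub (Finset.finite_toSet _)
    rw [Set.ncard_coe_finset] at h1
    have h3 := h1.trans Finset.card_biUnion_le
    exact_mod_cast h3
  refine hcard.trans ?_
  have hdeg : Φ.natDegree = d := hLP.deg
  have hlc : Φ.leadingCoeff = a := hLP.lc
  have hF : ∀ s ∈ S, ((F s).card : ℝ) ≤
      2 * (d : ℝ) ^ (d ^ 2) * (H : ℝ) ^ (1 - δ' / 16) * (1 / (s : ℝ) ^ (5 / 4 : ℝ)) := by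
    intro s hs
    simp only [S, Finset.mem_filter, Finset.mem_range] at hs
    obtain ⟨_, hsY, hs2, hcop⟩ := hs
    have hsR : (0 : ℝ) < s := by linarith
    have hs0 : 0 < s := by exact_mod_cast hsR
    have h1 : (F s).card ≤ d ^ s.primeFactors.card * (H / s ^ 2 + 1) := by
      have h3 := h2 Φ Δ hLP.bez (by rw [hdeg]; exact hd) (s ^ 2) H (Nat.one_le_pow _ _ hs0)
        (by rw [hlc]; exact Nat.Coprime.pow_left 2 hcop)
      rw [hdeg, Nat.primeFactors_pow _ two_ne_zero] at h3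
      have h4 : {t : ℕ | t < H ∧ ((s ^ 2 : ℕ) : ℤ) ∣ Φ.eval (t : ℤ)} = ↑(F s) := by
        ext t
        simp [F]
      rw [h4, Set.ncard_coe_finset] at h3
      exact h3
    have hs2R : (s : ℝ) ^ 2 ≤ H := by exact_mod_cast hs2
    have h5 : ((F s).card : ℝ) ≤ (d : ℝ) ^ s.primeFactors.card * (2 * (H / (s : ℝ) ^ 2)) := by
      have h6 : ((H / s ^ 2 : ℕ) : ℝ) ≤ (H : ℝ) / (s : ℝ) ^ 2 := by
        have := @Nat.cast_div_le ℝ _ _ _ H (s ^ 2)
        simpa using this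
      have h7 : (1 : ℝ) ≤ (H : ℝ) / (s : ℝ) ^ 2 := by
        rw [le_div_iff₀ (by positivity)]
        linarith
      calc ((F s).card : ℝ) ≤ ((d ^ s.primeFactors.card * (H / s ^ 2 + 1) : ℕ) : ℝ) := by
            exact_mod_cast h1
        _ = (d : ℝ) ^ s.primeFactors.card * (((H / s ^ 2 : ℕ) : ℝ) + 1) := by push_cast; ring
        _ ≤ _ := by
            refine mul_le_mul_of_nonneg_left ?_ (by positivity)
            linarith
    refine h5.trans ?_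
    have h8' := omega_real d hd s hs0.ne'
    have h9 : (s : ℝ) ^ (1 / 2 : ℝ) * (2 * (H / (s : ℝ) ^ 2)) ≤
        2 * (H : ℝ) ^ (1 - δ' / 16) * (1 / (s : ℝ) ^ (5 / 4 : ℝ)) := by
      have e1 : (s : ℝ) ^ (1 / 2 : ℝ) / (s : ℝ) ^ 2 =
          (s : ℝ) ^ (-(1 / 4) : ℝ) * (1 / (s : ℝ) ^ (5 / 4 : ℝ)) := by
        have e0 : (1 : ℝ) / (s : ℝ) ^ (5 / 4 : ℝ) = (s : ℝ) ^ (-(5 / 4) : ℝ) := by
          rw [Real.rpow_neg hsR.le, one_div ((s : ℝ) ^ (5 / 4 : ℝ))]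
        rw [e0, ← Real.rpow_add hsR, ← Real.rpow_two (s : ℝ), ← Real.rpow_sub hsR]
        norm_num
      have e2 : (s : ℝ) ^ (-(1 / 4) : ℝ) ≤ (H : ℝ) ^ (-(δ' / 16)) := by
        calc (s : ℝ) ^ (-(1 / 4) : ℝ) ≤ Y ^ (-(1 / 4) : ℝ) :=
              Real.rpow_le_rpow_of_nonpos hY0 hsY.le (by norm_num)
          _ = (H : ℝ) ^ (-(δ' / 16)) := by
              rw [hYdef, ← Real.rpow_mul hH0.le]
              congr 1
              ring
      have e3 : (H : ℝ) ^ (1 - δ' / 16) = H * (H : ℝ) ^ (-(δ' / 16)) := by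
        rw [sub_eq_add_neg, Real.rpow_add hH0, Real.rpow_one]
      calc (s : ℝ) ^ (1 / 2 : ℝ) * (2 * (H / (s : ℝ) ^ 2))
          = 2 * H * ((s : ℝ) ^ (1 / 2 : ℝ) / (s : ℝ) ^ 2) := by ring
        _ = 2 * H * ((s : ℝ) ^ (-(1 / 4) : ℝ) * (1 / (s : ℝ) ^ (5 / 4 : ℝ))) := by rw [e1]
        _ ≤ 2 * H * ((H : ℝ) ^ (-(δ' / 16)) * (1 / (s : ℝ) ^ (5 / 4 : ℝ))) := by
            refine mul_le_mul_of_nonneg_left ?_ (by positivity)
            exact mul_le_mul_of_nonneg_right e2 (by positivity)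
        _ = _ := by rw [e3]; ring
    calc (d : ℝ) ^ s.primeFactors.card * (2 * (H / (s : ℝ) ^ 2))
        ≤ ((d : ℝ) ^ (d ^ 2) * (s : ℝ) ^ (1 / 2 : ℝ)) * (2 * (H / (s : ℝ) ^ 2)) :=
          mul_le_mul_of_nonneg_right h8' (by positivity)
      _ = (d : ℝ) ^ (d ^ 2) * ((s : ℝ) ^ (1 / 2 : ℝ) * (2 * (H / (s : ℝ) ^ 2))) := by ring
      _ ≤ (d : ℝ) ^ (d ^ 2) * (2 * (H : ℝ) ^ (1 - δ' / 16) * (1 / (s : ℝ) ^ (5 / 4 : ℝ))) :=
          mul_le_mul_of_nonneg_left h9 (by positivity)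
      _ = _ := by ring
  have hsum : Summable (fun n : ℕ => 1 / (n : ℝ) ^ (5 / 4 : ℝ)) :=
    Real.summable_one_div_nat_rpow.2 (by norm_num)
  calc ∑ s ∈ S, ((F s).card : ℝ)
      ≤ ∑ s ∈ S, 2 * (d : ℝ) ^ (d ^ 2) * (H : ℝ) ^ (1 - δ' / 16) * (1 / (s : ℝ) ^ (5 / 4 : ℝ)) :=
        Finset.sum_le_sum hF
    _ = 2 * (d : ℝ) ^ (d ^ 2) * (H : ℝ) ^ (1 - δ' / 16) * ∑ s ∈ S, (1 / (s : ℝ) ^ (5 / 4 : ℝ)) := by
        rw [Finset.mul_sum]
    _ ≤ 2 * (d : ℝ) ^ (d ^ 2) * (H : ℝ) ^ (1 - δ' / 16) * ∑' n : ℕ, 1 / (n : ℝ) ^ (5 / 4 : ℝ) := by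
        refine mul_le_mul_of_nonneg_left ?_ (by positivity)
        exact hsum.sum_le_tsum S fun n _ => by positivity
    _ = _ := by ring

end Pool.Agent.FK.H91
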