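import Pool.Agent.Helper13_FK.Stmts

/-! FK, module LOW: lower bound for the product of the primes outside `M`. -/

set_option autoImplicit false

namespace Pool.Agent.FK.H91

open Finset

theorem prod_primes_mono {s t : Finset ℕ} (h : s ⊆ t) (ht : ∀ p ∈ t, 1 ≤ p) :
    ∏ p ∈ s, p ≤ ∏ p ∈ t, p :=
  Finset.prod_le_prod_of_subset_of_one_le' h fun p hp _ => ht p hp

theorem low : LowStmt := by
  intro Q _ N M P H δ δ' m l hH hδ hδ' hN hPN hM hbig hTT hsq hl
  classical
  have hH0 : (0 : ℝ) < H := by linarith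
  have hP0 : ∀ q, P q ≠ 0 := fun q h => by
    have := hPN q
    rw [h, zero_dvd_iff] at this
    omega
  let S : Q → Finset ℕ := fun q => (P q).primeFactors.filter (fun p => ¬ p ∣ M)
  let R : Q → ℕ := fun q => ∏ p ∈ S q, p
  have hSp : ∀ q, ∀ p ∈ S q, p.Prime ∧ p ∣ P q ∧ ¬ p ∣ M := by
    intro q p hp
    simp only [S, Finset.mem_filter, Nat.mem_primeFactors] at hp
    exact ⟨hp.1.1, hp.1.2.1, hp.2⟩
  have hR1 : ∀ q, 1 ≤ R q := fun q => Finset.one_le_prod' fun p hp => (hSp q p hp).1.one_lt.le
  -- each factor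
  have key : ∀ q, min (H ^ m q) (H ^ (l q - δ')) ≤ (R q : ℝ) := by
    intro q
    by_cases hex : ∃ p : ℕ, p.Prime ∧ H ^ δ < p ∧ p ^ 2 ∣ P q
    · obtain ⟨p, hp, hpH, hp2⟩ := hex
      refine (min_le_left _ _).trans ((hsq q p hp hpH hp2).trans ?_)
      have hpP : p ∣ P q := (dvd_pow_self p two_ne_zero).trans hp2
      have hpS : p ∈ S q := by
        simp only [S, Finset.mem_filter, Nat.mem_primeFactors]
        exact ⟨⟨hp, hpP, hP0 q⟩, hbig p hp hpH (hpP.trans (hPN q))⟩
      have h1 : ∏ x ∈ ({p} : Finset ℕ), x ≤ R q :=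
        prod_primes_mono (Finset.singleton_subset_iff.2 hpS) fun x hx => (hSp q x hx).1.one_lt.le
      rw [Finset.prod_singleton] at h1
      exact_mod_cast h1
    · push Not at hex
      refine (min_le_right _ _).trans ?_
      -- `P q ≤ TT * R q`
      let c : ℕ → Prop := fun p => p ∣ M ∨ ((p : ℝ) ≤ H ^ δ ∧ p ^ 2 ∣ N)
      let A := (P q).primeFactors.filter (fun p => c p)
      let B := (P q).primeFactors.filter (fun p => ¬ c p)
      have hPq : P q = (∏ p ∈ A, p ^ (P q).factorization p) * ∏ p ∈ B, p ^ (P q).factorization p := by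
        rw [Finset.prod_filter_mul_prod_filter_not]
        exact (Nat.prod_factorization_pow_eq_self (hP0 q)).symm
      have hA : ∏ p ∈ A, p ^ (P q).factorization p ≤ TT δ H M N := by
        have h1 : ∏ p ∈ A, p ^ (P q).factorization p ≤ ∏ p ∈ A, p ^ N.factorization p := by
          refine Finset.prod_le_prod' fun p hp => ?_
          have hpp : p.Prime := Nat.prime_of_mem_primeFactors (Finset.mem_filter.1 hp).1
          exact Nat.pow_le_pow_right hpp.pos
            ((Nat.factorization_le_iff_dvd (hP0 q) hN.ne').2 (hPN q) p)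
        refine h1.trans ?_
        unfold TT
        refine Finset.prod_le_prod_of_subset_of_one_le' ?_ ?_
        · intro p hp
          rw [Finset.mem_filter] at hp ⊢
          refine ⟨?_, hp.2⟩
          exact Nat.primeFactors_mono (hPN q) hN.ne' hp.1
        · intro p hp _
          have hpp : p.Prime := Nat.prime_of_mem_primeFactors (Finset.mem_filter.1 hp).1
          exact Nat.one_le_pow _ _ hpp.pos
      have hB : ∏ p ∈ B, p ^ (P q).factorization p ≤ R q := by
        have h1 : ∀ p ∈ B, (P q).factorization p ≤ 1 := by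
          intro p hp
          obtain ⟨hp1, hp2⟩ := Finset.mem_filter.1 hp
          have hpp : p.Prime := Nat.prime_of_mem_primeFactors hp1
          by_contra hlt
          have h2 : p ^ 2 ∣ P q := (hpp.pow_dvd_iff_le_factorization (hP0 q)).2 (by omega)
          simp only [c, not_or, not_and_or, not_le] at hp2
          rcases hp2.2 with h3 | h3
          · exact hex p hpp h3 h2
          · exact h3 (h2.trans (hPN q))
        have h2 : ∏ p ∈ B, p ^ (P q).factorization p ≤ ∏ p ∈ B, p := by
          refine Finset.prod_le_prod' fun p hp => ?_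
          have hpp : p.Prime := Nat.prime_of_mem_primeFactors (Finset.mem_filter.1 hp).1
          calc p ^ (P q).factorization p ≤ p ^ 1 := Nat.pow_le_pow_right hpp.pos (h1 p hp)
            _ = p := pow_one p
        refine h2.trans (prod_primes_mono ?_ fun x hx => (hSp q x hx).1.one_lt.le)
        intro p hp
        obtain ⟨hp1, hp2⟩ := Finset.mem_filter.1 hp
        simp only [c, not_or] at hp2
        exact Finset.mem_filter.2 ⟨hp1, hp2.1⟩
      have hPle : (P q : ℝ) ≤ H ^ δ' * R q := by
        have h3 : P q ≤ TT δ H M N * R q := by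
          calc P q = _ := hPq
            _ ≤ _ := Nat.mul_le_mul hA hB
        calc (P q : ℝ) ≤ ((TT δ H M N * R q : ℕ) : ℝ) := by exact_mod_cast h3
          _ = (TT δ H M N : ℝ) * R q := by push_cast; ring
          _ ≤ _ := mul_le_mul_of_nonneg_right hTT (Nat.cast_nonneg _)
      rw [Real.rpow_sub hH0, div_le_iff₀ (Real.rpow_pos_of_pos hH0 _), mul_comm]
      exact (hl q).trans hPle
  -- the product
  have hprod : ∏ q, R q ≤ ∏ p ∈ N.primeFactors.filter (fun p => ¬ p ∣ M), p := by
    have hdisj : Set.PairwiseDisjoint (↑(Finset.univ : Finset Q)) S := by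
      intro q _ q' _ hne
      rw [Function.onFun, Finset.disjoint_left]
      intro p hp hp'
      exact hne (hM p (hSp q p hp).1 (hSp q p hp).2.2 q q' (hSp q p hp).2.1 (hSp q' p hp').2.1)
    have h1 : ∏ q, R q = ∏ p ∈ Finset.univ.biUnion S, p := (Finset.prod_biUnion hdisj).symm
    rw [h1]
    refine prod_primes_mono ?_ ?_
    · intro p hp
      obtain ⟨q, _, hq⟩ := Finset.mem_biUnion.1 hp
      obtain ⟨h2, h3, h4⟩ := hSp q p hq
      rw [Finset.mem_filter, Nat.mem_primeFactors]
      exact ⟨⟨h2, h3.trans (hPN q), hN.ne'⟩, h4⟩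
    · intro p hp
      exact (Nat.prime_of_mem_primeFactors (Finset.mem_filter.1 hp).1).one_lt.le
  calc ∏ q, min (H ^ m q) (H ^ (l q - δ')) ≤ ∏ q, (R q : ℝ) := by
        refine Finset.prod_le_prod (fun q _ => ?_) (fun q _ => key q)
        exact le_min (Real.rpow_nonneg hH0.le _) (Real.rpow_nonneg hH0.le _)
    _ = ((∏ q, R q : ℕ) : ℝ) := by push_cast; rfl
    _ ≤ _ := by exact_mod_cast hprod

end Pool.Agent.FK.H91
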